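import Pool.Agent.H17.L.R_seed8.H469R2.NK.Vdc

open Finset

namespace Pool.Agent.H469R2.NK

/-- iterated differences of the derivatives of `1/x` -/
noncomputable def D : List ℕ → ℕ → ℝ → ℝ
  | [], r, x => (-1) ^ r * r.factorial / x ^ (r + 1)
  | l :: ls, r, x => D ls r (x + l) - D ls r x

lemma hasDerivAt_D (ls : List ℕ) (r : ℕ) {x : ℝ} (hx : 0 < x) :
    HasDerivAt (D ls r) (D ls (r + 1) x) x := by
  induction ls generalizing x with
  | nil =>
    have h1 : HasDerivAt (fun y : ℝ => (y ^ (r + 1))⁻¹) (-(((r + 1 : ℕ) : ℝ) * x ^ r) / (x ^ (r + 1)) ^ 2) x := by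
      have := (hasDerivAt_pow (r + 1) x).fun_inv (by positivity)
      simpa using this
    have h2 := h1.const_mul ((-1) ^ r * (r.factorial : ℝ))
    have e1 : D [] r = fun y : ℝ => (-1) ^ r * (r.factorial : ℝ) * (y ^ (r + 1))⁻¹ := by
      funext y; simp only [D, div_eq_mul_inv]
    rw [e1]
    refine h2.congr_deriv ?_
    have hx' : x ≠ 0 := hx.ne'
    have e2 : D [] (r + 1) x = (-1) ^ (r + 1) * (r + 1).factorial / x ^ (r + 1 + 1) := rfl
    rw [e2, Nat.factorial_succ]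
    push_cast
    field_simp
    ring
  | cons l ls ih =>
    have h1 : HasDerivAt (fun y => D ls r (y + l)) (D ls (r + 1) (x + l)) x := by
      have := (ih (x := x + l) (by positivity))
      exact this.comp_add_const x (l : ℝ)
    exact h1.sub (ih hx)

/-- size of the iterated differences -/
lemma D_bounds (ls : List ℕ) (r : ℕ) {N x : ℝ} (hN : 0 < N) (hx : N ≤ x)
    (hx2 : x + (ls.sum : ℕ) ≤ 3 * N) :
    ((ls.length + r).factorial : ℝ) / (3 * N) ^ (ls.length + r + 1) * (ls.prod : ℕ) ≤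
        (-1) ^ (ls.length + r) * D ls r x ∧
      (-1) ^ (ls.length + r) * D ls r x ≤
        ((ls.length + r).factorial : ℝ) / N ^ (ls.length + r + 1) * (ls.prod : ℕ) := by
  induction ls generalizing r x with
  | nil =>
    simp only [List.length_nil, zero_add, List.prod_nil, Nat.cast_one, mul_one, D] at *
    have h1 : (-1 : ℝ) ^ r * ((-1) ^ r * r.factorial / x ^ (r + 1)) = r.factorial / x ^ (r + 1) := by
      rw [← mul_div_assoc, ← mul_assoc, ← mul_pow]
      norm_num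
    rw [h1]
    have hx0 : 0 < x := hN.trans_le hx
    have hx3 : x ≤ 3 * N := by simpa using hx2
    constructor <;> gcongr
  | cons l ls ih =>
    simp only [List.length_cons, List.prod_cons, List.sum_cons] at *
    rw [Nat.cast_add] at hx2
    rw [Nat.cast_mul]
    rcases Nat.eq_zero_or_pos l with rfl | hl
    · simp [D]
    have hl' : (0 : ℝ) < l := by exact_mod_cast hl
    obtain ⟨ξ, hξ, hξ2⟩ := exists_hasDerivAt_eq_slope (D ls r) (D ls (r + 1)) (a := x) (b := x + l)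
      (by linarith) (fun y hy => (hasDerivAt_D ls r (by linarith [hy.1])).continuousAt.continuousWithinAt)
      (fun y hy => hasDerivAt_D ls r (by linarith [hy.1]))
    have h1 : D (l :: ls) r x = l * D ls (r + 1) ξ := by
      simp only [D]
      rw [hξ2, add_sub_cancel_left]; field_simp
    have h2 := ih (r := r + 1) (x := ξ) (by linarith [hξ.1]) (by linarith [hξ.2])
    rw [show ls.length + (r + 1) = ls.length + 1 + r by ring] at h2
    rw [h1]
    have e1 : (-1 : ℝ) ^ (ls.length + 1 + r) * (l * D ls (r + 1) ξ) =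
      l * ((-1 : ℝ) ^ (ls.length + 1 + r) * D ls (r + 1) ξ) := by ring
    rw [e1]
    constructor
    · calc _ = (l : ℝ) * (((ls.length + 1 + r).factorial : ℝ) / (3 * N) ^ (ls.length + 1 + r + 1) * (ls.prod : ℕ)) := by
            ring
        _ ≤ _ := by
            have := h2.1
            gcongr
    · calc _ ≤ (l : ℝ) * (((ls.length + 1 + r).factorial : ℝ) / N ^ (ls.length + 1 + r + 1) * (ls.prod : ℕ)) := by
            have := h2.2
            gcongr
        _ = _ := by ring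

/-- the differenced sum -/
noncomputable def SS (Z : ℝ) (a L : ℕ) (ls : List ℕ) : ℂ :=
  ∑ n ∈ range (L - ls.sum), e (Z * D ls 0 ((a + n : ℕ) : ℝ))

lemma SS_sq (Z : ℝ) (a L H : ℕ) (ls : List ℕ) :
    (H : ℝ) * ‖SS Z a L ls‖ ^ 2 ≤ (L + H) * (L + 2 * ∑ l ∈ Ico 1 H, ‖SS Z a L (l :: ls)‖) := by
  have h := vdcH (fun n => e (Z * D ls 0 ((a + n : ℕ) : ℝ))) (fun n => (norm_e _).le) (L - ls.sum) H
  have h1 : ∀ l, ∑ n ∈ range (L - ls.sum - l), e (Z * D ls 0 ((a + (n + l) : ℕ) : ℝ)) *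
      (starRingEnd ℂ) (e (Z * D ls 0 ((a + n : ℕ) : ℝ))) = SS Z a L (l :: ls) := by
    intro l
    unfold SS
    rw [List.sum_cons, show L - (l + ls.sum) = L - ls.sum - l by omega]
    refine sum_congr rfl fun n _ => ?_
    rw [conj_e, ← e_add]
    congr 1
    simp only [D]
    push_cast
    rw [show (a : ℝ) + n + l = a + (n + l) by ring]
    ring
  simp only [h1] at h
  refine h.trans ?_
  have h2 : ((L - ls.sum : ℕ) : ℝ) ≤ L := by exact_mod_cast Nat.sub_le _ _
  gcongr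

/-- last step: Kusmin–Landau -/
lemma SS_le (Z : ℝ) (hZ : 0 < Z) (N a L : ℕ) (hN : 1 ≤ N) (ha : N ≤ a) (haL : a + L ≤ 3 * N)
    (ls : List ℕ) (hls : 0 < ls.prod)
    (hup : 2 * (Z * ((ls.length + 1).factorial / (N : ℝ) ^ (ls.length + 2) * (ls.prod : ℕ))) ≤ 1) :
    ‖SS Z a L ls‖ ≤ 2 * (3 * N) ^ (ls.length + 2) / (Z * (ls.length + 1).factorial * (ls.prod : ℕ)) := by
  have hN' : (0 : ℝ) < N := by exact_mod_cast hN
  have hP : (0 : ℝ) < (ls.prod : ℕ) := by exact_mod_cast hls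
  rcases Nat.lt_or_ge L (ls.sum + 1) with hL | hL
  · unfold SS
    rw [show L - ls.sum = 0 by omega]
    simp only [range_zero, sum_empty, norm_zero]
    positivity
  set θ : ℝ := Z * ((ls.length + 1).factorial / (3 * (N : ℝ)) ^ (ls.length + 2) * (ls.prod : ℕ)) with hθ
  have hθ0 : 0 < θ := by positivity
  set σ : ℝ := (-1) ^ (ls.length + 1) with hσ
  have hσ1 : σ = 1 ∨ σ = -1 := neg_one_pow_eq_or ℝ _
  have hx1 : ∀ n < L - ls.sum, θ ≤ σ * (Z * D (1 :: ls) 0 ((a + n : ℕ) : ℝ)) ∧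
      σ * (Z * D (1 :: ls) 0 ((a + n : ℕ) : ℝ)) ≤ 1 / 2 := by
    intro n hn
    have hxN : (N : ℝ) ≤ ((a + n : ℕ) : ℝ) := by exact_mod_cast (by omega : N ≤ a + n)
    have h := D_bounds (1 :: ls) 0 (N := N) (x := ((a + n : ℕ) : ℝ)) hN' hxN (by
      rw [List.sum_cons]; norm_cast; omega)
    simp only [List.length_cons, add_zero, List.prod_cons, one_mul] at h
    have e1 : σ * (Z * D (1 :: ls) 0 ((a + n : ℕ) : ℝ)) =
      Z * ((-1) ^ (ls.length + 1) * D (1 :: ls) 0 ((a + n : ℕ) : ℝ)) := by rw [hσ]; ring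
    rw [e1]
    constructor
    · exact mul_le_mul_of_nonneg_left h.1 hZ.le
    · have h2 := mul_le_mul_of_nonneg_left h.2 hZ.le
      rw [show ls.length + 1 + 1 = ls.length + 2 by ring] at h2
      linarith
  have hθ2 : θ ≤ 1 / 2 := (hx1 0 (by omega)).1.trans (hx1 0 (by omega)).2
  have hdiff : ∀ n : ℕ, σ * (Z * D ls 0 ((a + (n + 1) : ℕ) : ℝ)) - σ * (Z * D ls 0 ((a + n : ℕ) : ℝ)) =
      σ * (Z * D (1 :: ls) 0 ((a + n : ℕ) : ℝ)) := by
    intro n
    simp only [D]
    push_cast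
    rw [show (a : ℝ) + n + 1 = a + (n + 1) by ring]
    ring
  have hdiff2 : ∀ n, n + 1 < L - ls.sum → σ * (Z * D (1 :: ls) 0 ((a + (n + 1) : ℕ) : ℝ)) ≤
      σ * (Z * D (1 :: ls) 0 ((a + n : ℕ) : ℝ)) := by
    intro n hn
    have hxN : (N : ℝ) ≤ ((a + n : ℕ) : ℝ) := by exact_mod_cast (by omega : N ≤ a + n)
    have h := D_bounds (1 :: 1 :: ls) 0 (N := N) (x := ((a + n : ℕ) : ℝ)) hN' hxN (by
      rw [List.sum_cons, List.sum_cons]; norm_cast; omega)
    simp only [List.length_cons, add_zero, List.prod_cons, one_mul] at h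
    have h0 := h.1
    have h1 : (0 : ℝ) ≤ (-1) ^ (ls.length + 1 + 1) * D (1 :: 1 :: ls) 0 ((a + n : ℕ) : ℝ) :=
      le_trans (by positivity) h0
    have h2 : D (1 :: 1 :: ls) 0 ((a + n : ℕ) : ℝ) =
        D (1 :: ls) 0 ((a + (n + 1) : ℕ) : ℝ) - D (1 :: ls) 0 ((a + n : ℕ) : ℝ) := by
      conv_lhs => rw [D]
      push_cast
      rw [show (a : ℝ) + n + 1 = a + (n + 1) by ring]
    rw [h2, pow_succ] at h1
    have h3 := mul_nonneg hZ.le h1
    have e3 : Z * ((-1) ^ (ls.length + 1) * -1 * (D (1 :: ls) 0 ((a + (n + 1) : ℕ) : ℝ) - D (1 :: ls) 0 ((a + n : ℕ) : ℝ))) =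
      σ * (Z * D (1 :: ls) 0 ((a + n : ℕ) : ℝ)) - σ * (Z * D (1 :: ls) 0 ((a + (n + 1) : ℕ) : ℝ)) := by
      rw [hσ]; ring
    rw [e3] at h3
    linarith
  have hKL := kusmin_landau_anti (fun n => σ * (Z * D ls 0 ((a + n : ℕ) : ℝ))) (L - ls.sum) hθ0
    (fun n hn => by rw [hdiff]; exact (hx1 n hn).1)
    (fun n hn => by rw [hdiff]; linarith [(hx1 n hn).2])
    (fun n hn => by
      rw [hdiff, hdiff]
      exact hdiff2 n hn)
  have hnorm : ‖SS Z a L ls‖ = ‖∑ n ∈ range (L - ls.sum), e (σ * (Z * D ls 0 ((a + n : ℕ) : ℝ)))‖ := by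
    unfold SS
    rcases hσ1 with h | h
    · rw [h]; simp
    · rw [h, ← norm_sum_neg]
      congr 1
      refine sum_congr rfl fun n _ => ?_
      congr 1; ring
  rw [hnorm]
  refine hKL.trans (le_of_eq ?_)
  rw [hθ]
  field_simp

end Pool.Agent.H469R2.NK
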