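import Pool.Agent.H17.L.R_seed8.H469R2.NK.Diff

open Finset

namespace Pool.Agent.H469R2.NK

/-- iterated averages over `[1,H)` -/
noncomputable def Av (H : ℕ) (T : List ℕ → ℝ) : ℕ → List ℕ → ℝ
  | 0, ls => T ls
  | q + 1, ls => (∑ l ∈ Ico 1 H, Av H T q (l :: ls)) / H

lemma Av_nonneg {H : ℕ} {T : List ℕ → ℝ} (hT : ∀ ls, 0 ≤ T ls) (q : ℕ) (ls : List ℕ) : 0 ≤ Av H T q ls := by
  induction q generalizing ls with
  | zero => exact hT ls
  | succ q ih => exact div_nonneg (sum_nonneg fun l _ => ih _) (by positivity)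

lemma avg_sq {H : ℕ} (f : ℕ → ℝ) : ((∑ l ∈ Ico 1 H, f l) / H) ^ 2 ≤ (∑ l ∈ Ico 1 H, f l ^ 2) / H := by
  rcases Nat.eq_zero_or_pos H with rfl | hH
  · simp
  have hH' : (0 : ℝ) < H := by exact_mod_cast hH
  have h := sq_sum_le_card_mul_sum_sq (s := Ico 1 H) (f := f)
  have h2 : (((Ico 1 H).card : ℕ) : ℝ) ≤ H := by rw [Nat.card_Ico]; exact_mod_cast Nat.sub_le _ _
  rw [div_pow, div_le_div_iff₀ (by positivity) hH']
  have h3 : (0 : ℝ) ≤ ∑ l ∈ Ico 1 H, f l ^ 2 := sum_nonneg fun _ _ => sq_nonneg _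
  calc (∑ l ∈ Ico 1 H, f l) ^ 2 * H ≤ (((Ico 1 H).card : ℕ) * ∑ l ∈ Ico 1 H, f l ^ 2) * H := by gcongr
    _ ≤ (H * ∑ l ∈ Ico 1 H, f l ^ 2) * H := by gcongr
    _ = _ := by ring

lemma avg_pow {H : ℕ} (q : ℕ) (f : ℕ → ℝ) (hf : ∀ l, 0 ≤ f l) :
    ((∑ l ∈ Ico 1 H, f l) / H) ^ (2 ^ q) ≤ (∑ l ∈ Ico 1 H, f l ^ (2 ^ q)) / H := by
  induction q with
  | zero => simp
  | succ q ih =>
    rw [pow_succ, pow_mul]
    have h0 : 0 ≤ ((∑ l ∈ Ico 1 H, f l) / H) := div_nonneg (sum_nonneg fun l _ => hf l) (by positivity)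
    calc (((∑ l ∈ Ico 1 H, f l) / H) ^ (2 ^ q)) ^ 2 ≤ ((∑ l ∈ Ico 1 H, f l ^ (2 ^ q)) / H) ^ 2 := by gcongr
      _ ≤ (∑ l ∈ Ico 1 H, (f l ^ (2 ^ q)) ^ 2) / H := avg_sq _
      _ = _ := by
        congr 1
        exact sum_congr rfl fun l _ => by rw [← pow_mul]

/-- the constant -/
noncomputable def Cq : ℕ → ℝ
  | 0 => 1
  | q + 1 => 2 ^ (2 ^ q) * (2 ^ (2 ^ q) + 4 ^ (2 ^ q) * Cq q) 

lemma Cq_pos (q : ℕ) : 0 < Cq q := by
  induction q with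
  | zero => norm_num [Cq]
  | succ q ih => unfold Cq; positivity

lemma iterate {H : ℕ} (hH : 1 ≤ H) (T : List ℕ → ℝ) (hT : ∀ ls, 0 ≤ T ls)
    (hstep : ∀ ls, T ls ^ 2 ≤ 2 / H + 4 * ((∑ l ∈ Ico 1 H, T (l :: ls)) / H)) (q : ℕ) (ls : List ℕ) :
    T ls ^ (2 ^ q) ≤ Cq q * (1 / H + Av H T q ls) := by
  have hH' : (1 : ℝ) ≤ H := by exact_mod_cast hH
  induction q generalizing ls with
  | zero =>
    simp only [pow_zero, pow_one, Cq, Av, one_mul]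
    have : (0 : ℝ) ≤ 1 / H := by positivity
    linarith
  | succ q ih =>
    have h1 : T ls ^ (2 ^ (q + 1)) = (T ls ^ 2) ^ (2 ^ q) := by rw [← pow_mul]; congr 1; ring
    rw [h1]
    have h2 : (T ls ^ 2) ^ (2 ^ q) ≤ (2 / H + 4 * ((∑ l ∈ Ico 1 H, T (l :: ls)) / H)) ^ (2 ^ q) := by
      gcongr; exact hstep ls
    have hA : 0 ≤ (∑ l ∈ Ico 1 H, T (l :: ls)) / H := div_nonneg (sum_nonneg fun l _ => hT _) (by positivity)
    have h3 : (2 / (H : ℝ) + 4 * ((∑ l ∈ Ico 1 H, T (l :: ls)) / H)) ^ (2 ^ q) ≤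
        2 ^ (2 ^ q) * ((2 / (H : ℝ)) ^ (2 ^ q) + (4 * ((∑ l ∈ Ico 1 H, T (l :: ls)) / H)) ^ (2 ^ q)) := by
      set x : ℝ := 2 / H with hx
      set y : ℝ := 4 * ((∑ l ∈ Ico 1 H, T (l :: ls)) / H) with hy
      have hx0 : 0 ≤ x := by positivity
      have hy0 : 0 ≤ y := by positivity
      calc (x + y) ^ (2 ^ q) ≤ (2 * max x y) ^ (2 ^ q) := by
            gcongr
            rw [two_mul]
            exact add_le_add (le_max_left _ _) (le_max_right _ _)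
        _ = 2 ^ (2 ^ q) * (max x y) ^ (2 ^ q) := by rw [mul_pow]
        _ ≤ 2 ^ (2 ^ q) * (x ^ (2 ^ q) + y ^ (2 ^ q)) := by
            gcongr
            rcases max_choice x y with h | h <;> rw [h]
            · have : 0 ≤ y ^ (2 ^ q) := by positivity
              linarith
            · have : 0 ≤ x ^ (2 ^ q) := by positivity
              linarith
    have h4 : (2 / (H : ℝ)) ^ (2 ^ q) ≤ 2 ^ (2 ^ q) * (1 / H) := by
      rw [div_pow, div_eq_mul_one_div]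
      gcongr
      exact le_self_pow₀ hH' (by positivity)
    have h5 : (4 * ((∑ l ∈ Ico 1 H, T (l :: ls)) / H)) ^ (2 ^ q) ≤
        4 ^ (2 ^ q) * (Cq q * (1 / H + Av H T (q + 1) ls)) := by
      rw [mul_pow]
      gcongr
      refine (avg_pow q (fun l => T (l :: ls)) (fun l => hT _)).trans ?_
      have h6 : ∑ l ∈ Ico 1 H, T (l :: ls) ^ (2 ^ q) ≤ ∑ l ∈ Ico 1 H, Cq q * (1 / H + Av H T q (l :: ls)) :=
        sum_le_sum fun l _ => ih _
      rw [← mul_sum, sum_add_distrib, sum_const, nsmul_eq_mul] at h6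
      have h7 : (((Ico 1 H).card : ℕ) : ℝ) ≤ H := by rw [Nat.card_Ico]; exact_mod_cast Nat.sub_le _ _
      have hCq := Cq_pos q
      calc (∑ l ∈ Ico 1 H, T (l :: ls) ^ (2 ^ q)) / H
          ≤ (Cq q * (((Ico 1 H).card : ℕ) * (1 / H) + ∑ l ∈ Ico 1 H, Av H T q (l :: ls))) / H := by gcongr
        _ ≤ (Cq q * (H * (1 / H) + ∑ l ∈ Ico 1 H, Av H T q (l :: ls))) / H := by gcongr
        _ = Cq q * (1 / H + Av H T (q + 1) ls) := by
            simp only [Av]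
            field_simp
    have hAv := Av_nonneg (H := H) hT (q + 1) ls
    have hCq := Cq_pos q
    calc (T ls ^ 2) ^ (2 ^ q) ≤ 2 ^ (2 ^ q) * ((2 / (H : ℝ)) ^ (2 ^ q) + (4 * ((∑ l ∈ Ico 1 H, T (l :: ls)) / H)) ^ (2 ^ q)) :=
          h2.trans h3
      _ ≤ 2 ^ (2 ^ q) * (2 ^ (2 ^ q) * (1 / H) + 4 ^ (2 ^ q) * (Cq q * (1 / H + Av H T (q + 1) ls))) := by gcongr
      _ ≤ 2 ^ (2 ^ q) * (2 ^ (2 ^ q) * (1 / H + Av H T (q + 1) ls) + 4 ^ (2 ^ q) * (Cq q * (1 / H + Av H T (q + 1) ls))) := by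
          gcongr
          linarith
      _ = Cq (q + 1) * (1 / H + Av H T (q + 1) ls) := by
          conv_rhs => rw [Cq]
          ring

/-- averages of `κ / ∏ ls` -/
lemma Av_le {H : ℕ} {T : List ℕ → ℝ} {κ : ℝ} (m : ℕ)
    (hT : ∀ ls : List ℕ, ls.length = m → (∀ l ∈ ls, 1 ≤ l ∧ l < H) → T ls ≤ κ / (ls.prod : ℕ))
    (q : ℕ) (ls : List ℕ) (hls : ls.length + q = m) (hl : ∀ l ∈ ls, 1 ≤ l ∧ l < H) :
    Av H T q ls ≤ κ * ((∑ l ∈ Ico 1 H, (1 : ℝ) / l) / H) ^ q / (ls.prod : ℕ) := by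
  induction q generalizing ls with
  | zero => simpa [Av] using hT ls (by omega) hl
  | succ q ih =>
    simp only [Av]
    have h1 : ∀ l ∈ Ico 1 H, Av H T q (l :: ls) ≤
        κ * ((∑ l ∈ Ico 1 H, (1 : ℝ) / l) / H) ^ q / (ls.prod : ℕ) * (1 / l) := by
      intro l hl'
      have hl'' := mem_Ico.mp hl'
      have := ih (l :: ls) (by simp only [List.length_cons]; omega) (by
        intro l2 hl2
        rcases List.mem_cons.mp hl2 with rfl | h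
        · exact hl''
        · exact hl l2 h)
      refine this.trans (le_of_eq ?_)
      rw [List.prod_cons, Nat.cast_mul]
      rw [div_mul_div_comm, mul_one, mul_comm ((ls.prod : ℕ) : ℝ)]
    calc (∑ l ∈ Ico 1 H, Av H T q (l :: ls)) / H ≤
        (∑ l ∈ Ico 1 H, κ * ((∑ l ∈ Ico 1 H, (1 : ℝ) / l) / H) ^ q / (ls.prod : ℕ) * (1 / l)) / H := by
          gcongr with l hl'
          exact h1 l hl'
      _ = _ := by
          rw [← mul_sum, pow_succ]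
          ring

end Pool.Agent.H469R2.NK
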