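import Mathlib

open Finset

namespace Pool.Agent.H469R2.NK

/-- the additive character -/
noncomputable def e (x : ℝ) : ℂ := Complex.exp (((2 * Real.pi * x : ℝ) : ℂ) * Complex.I)

lemma norm_e (x : ℝ) : ‖e x‖ = 1 := by
  unfold e
  exact Complex.norm_exp_ofReal_mul_I _

lemma e_add (x y : ℝ) : e (x + y) = e x * e y := by
  unfold e
  rw [← Complex.exp_add]
  congr 1
  push_cast
  ring

lemma conj_e (x : ℝ) : (starRingEnd ℂ) (e x) = e (-x) := by
  unfold e
  rw [← Complex.exp_conj]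
  congr 1
  rw [map_mul, Complex.conj_ofReal, Complex.conj_I]
  push_cast
  ring

lemma e_zero : e 0 = 1 := by simp [e]

/-- cotangent coefficient: `1/(1-e δ) = 1/2 + (cot (π δ)/2) i` -/
noncomputable def ct (δ : ℝ) : ℝ := Real.cos (Real.pi * δ) / Real.sin (Real.pi * δ)

noncomputable def cc (δ : ℝ) : ℂ := 1 / 2 + ((ct δ / 2 : ℝ) : ℂ) * Complex.I

lemma cc_mul {δ : ℝ} (h : Real.sin (Real.pi * δ) ≠ 0) : cc δ * (1 - e δ) = 1 := by
  unfold cc e ct
  have h1 : (2 * Real.pi * δ) = 2 * (Real.pi * δ) := by ring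
  rw [h1, Complex.exp_mul_I]
  set t := Real.pi * δ with ht
  rw [← Complex.ofReal_cos, ← Complex.ofReal_sin, Real.cos_two_mul, Real.sin_two_mul]
  have h2 : (Real.sin t : ℂ) ≠ 0 := by exact_mod_cast h
  have h3 : (Real.sin t : ℂ) ^ 2 + (Real.cos t : ℂ) ^ 2 = 1 := by
    exact_mod_cast Real.sin_sq_add_cos_sq t
  push_cast
  rw [Complex.ofReal_sin] at h2 h3
  rw [Complex.ofReal_cos] at h3
  generalize Complex.sin (t : ℂ) = s at *
  generalize Complex.cos (t : ℂ) = c at *
  have hI : Complex.I * Complex.I = -1 := Complex.I_mul_I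
  have e1 : (1 / 2 + c / s / 2 * Complex.I) = (s + c * Complex.I) / (2 * s) := by
    field_simp
  have e2 : (1 - (2 * c ^ 2 - 1 + 2 * s * c * Complex.I)) = 2 * s * (s - c * Complex.I) := by
    have : c ^ 2 = 1 - s ^ 2 := by rw [← h3]; ring
    rw [this]; ring
  rw [e1, e2, div_mul_eq_mul_div, div_eq_one_iff_eq (by simpa using h2)]
  linear_combination 2 * s * h3 - 2 * s * c ^ 2 * hI

lemma sin_pos_of {δ : ℝ} (h0 : 0 < δ) (h1 : δ < 1) : 0 < Real.sin (Real.pi * δ) := by
  apply Real.sin_pos_of_pos_of_lt_pi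
  · have := Real.pi_pos; positivity
  · have := Real.pi_pos; nlinarith

lemma ct_anti {a b : ℝ} (h0 : 0 < a) (hab : a ≤ b) (h1 : b < 1) : ct b ≤ ct a := by
  unfold ct
  have ha := sin_pos_of h0 (hab.trans_lt h1)
  have hb := sin_pos_of (h0.trans_le hab) h1
  rw [div_le_div_iff₀ hb ha]
  have : 0 ≤ Real.sin (Real.pi * b - Real.pi * a) := by
    apply Real.sin_nonneg_of_nonneg_of_le_pi
    · have := Real.pi_pos; nlinarith
    · have := Real.pi_pos; nlinarith
  rw [Real.sin_sub] at this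
  linarith

lemma sin_ge {θ δ : ℝ} (hθ : 0 < θ) (h0 : θ ≤ δ) (h1 : δ ≤ 1 - θ) :
    2 * θ ≤ Real.sin (Real.pi * δ) := by
  have hpi := Real.pi_pos
  rcases le_total δ (1 / 2) with h | h
  · have h3 := Real.mul_le_sin (x := Real.pi * δ) (by nlinarith) (by nlinarith)
    have h4 : 2 / Real.pi * (Real.pi * δ) = 2 * δ := by field_simp
    rw [h4] at h3
    linarith
  · have h3 := Real.mul_le_sin (x := Real.pi * (1 - δ)) (by nlinarith) (by nlinarith)
    have h4 : 2 / Real.pi * (Real.pi * (1 - δ)) = 2 * (1 - δ) := by field_simp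
    have h5 : Real.sin (Real.pi * (1 - δ)) = Real.sin (Real.pi * δ) := by
      rw [show Real.pi * (1 - δ) = Real.pi - Real.pi * δ by ring, Real.sin_pi_sub]
    rw [h4, h5] at h3
    linarith

lemma abs_ct_le {θ δ : ℝ} (hθ : 0 < θ) (h0 : θ ≤ δ) (h1 : δ ≤ 1 - θ) : |ct δ| ≤ 1 / (2 * θ) := by
  unfold ct
  have h := sin_ge hθ h0 h1
  have hs : 0 < Real.sin (Real.pi * δ) := by linarith
  rw [abs_div, abs_of_pos hs]
  apply div_le_div₀ zero_le_one (Real.abs_cos_le_one _) (by linarith) h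

lemma norm_cc_le {θ δ : ℝ} (hθ : 0 < θ) (h0 : θ ≤ δ) (h1 : δ ≤ 1 - θ) :
    ‖cc δ‖ ≤ 1 / 2 + 1 / (4 * θ) := by
  unfold cc
  refine (norm_add_le _ _).trans ?_
  rw [norm_mul, Complex.norm_I, mul_one, Complex.norm_real, Real.norm_eq_abs, abs_div]
  have := abs_ct_le hθ h0 h1
  have e1 : ‖(1 / 2 : ℂ)‖ = 1 / 2 := by norm_num
  rw [e1, abs_of_pos (by norm_num : (0:ℝ) < 2)]
  have : |ct δ| / 2 ≤ 1 / (4 * θ) := by
    calc |ct δ| / 2 ≤ 1 / (2 * θ) / 2 := by gcongr
      _ = 1 / (4 * θ) := by rw [div_div]; ring_nf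
  linarith

/-- Summation by parts identity. -/
lemma abel (x : ℕ → ℝ) (N : ℕ)
    (hs : ∀ n < N + 1, Real.sin (Real.pi * (x (n + 1) - x n)) ≠ 0) :
    ∑ n ∈ range (N + 1), e (x n) =
      e (x 0) * cc (x 1 - x 0) - e (x (N + 1)) * cc (x (N + 1) - x N) +
        ∑ n ∈ range N, e (x (n + 1)) * (cc (x (n + 2) - x (n + 1)) - cc (x (n + 1) - x n)) := by
  induction N with
  | zero =>
    have h := cc_mul (hs 0 (by omega))
    simp only [zero_add, sum_range_one, range_zero, sum_empty, add_zero]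
    have h2 : e (x 1) = e (x 0) * e (x 1 - x 0) := by rw [← e_add]; congr 1; ring
    simp only [zero_add] at h
    rw [h2]
    linear_combination (-e (x 0)) * h
  | succ N ih =>
    rw [sum_range_succ, ih (fun n hn => hs n (by omega)), sum_range_succ _ N]
    have h := cc_mul (hs (N + 1) (by omega))
    have h2 : e (x (N + 1 + 1)) = e (x (N + 1)) * e (x (N + 1 + 1) - x (N + 1)) := by
      rw [← e_add]; congr 1; ring
    rw [show N + 2 = N + 1 + 1 by ring, h2]
    linear_combination (-e (x (N + 1))) * h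

/-- Kusmin–Landau, increasing differences. -/
theorem kusmin_landau_mono (x : ℕ → ℝ) (N : ℕ) {θ : ℝ} (hθ : 0 < θ)
    (h0 : ∀ n < N, θ ≤ x (n + 1) - x n) (h1 : ∀ n < N, x (n + 1) - x n ≤ 1 - θ)
    (hm : ∀ n, n + 1 < N → x (n + 1) - x n ≤ x (n + 2) - x (n + 1)) :
    ‖∑ n ∈ range N, e (x n)‖ ≤ 2 / θ := by
  rcases Nat.eq_zero_or_pos N with rfl | hN
  · simp only [range_zero, sum_empty, norm_zero]; positivity
  obtain ⟨N, rfl⟩ : ∃ M, N = M + 1 := ⟨N - 1, by omega⟩
  have hθ2 : θ ≤ 1 / 2 := by have := h0 0 (by omega); have := h1 0 (by omega); linarith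
  rw [abel x N (fun n hn => by
    have := sin_ge hθ (h0 n hn) (h1 n hn)
    intro h; rw [h] at this; linarith)]
  have hb1 := norm_cc_le hθ (h0 0 (by omega)) (h1 0 (by omega))
  have hb2 := norm_cc_le hθ (h0 N (by omega)) (h1 N (by omega))
  have key : ∀ M ≤ N, ‖∑ n ∈ range M, e (x (n + 1)) * (cc (x (n + 2) - x (n + 1)) - cc (x (n + 1) - x n))‖
      ≤ (ct (x 1 - x 0) - ct (x (M + 1) - x M)) / 2 := by
    intro M hM
    induction M with
    | zero => simp
    | succ M ih =>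
      rw [sum_range_succ]
      refine (norm_add_le _ _).trans ?_
      have ih' := ih (by omega)
      rw [norm_mul, norm_e, one_mul]
      have hle := hm M (by omega)
      have h0' := h0 M (by omega)
      have h1' := h1 (M + 1) (by omega)
      have hct := ct_anti (by linarith : 0 < x (M + 1) - x M) hle (by
        have : x (M + 2) - x (M + 1) ≤ 1 - θ := h1'
        linarith)
      have : ‖cc (x (M + 2) - x (M + 1)) - cc (x (M + 1) - x M)‖ =
          (ct (x (M + 1) - x M) - ct (x (M + 2) - x (M + 1))) / 2 := by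
        unfold cc
        rw [add_sub_add_left_eq_sub, ← sub_mul, ← Complex.ofReal_sub, norm_mul, Complex.norm_I,
          mul_one, Complex.norm_real, Real.norm_eq_abs, abs_sub_comm, ← sub_div, abs_div,
          abs_of_nonneg (by linarith), abs_of_pos (by norm_num : (0:ℝ) < 2)]
      rw [this]
      have e3 : x (M + 1 + 1) - x (M + 1) = x (M + 2) - x (M + 1) := rfl
      rw [e3]
      linarith
  have hk := key N le_rfl
  have hc1 := abs_ct_le hθ (h0 0 (by omega)) (h1 0 (by omega))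
  have hc2 := abs_ct_le hθ (h0 N (by omega)) (h1 N (by omega))
  have hc1' := (abs_le.mp hc1).2
  have hc2' := (abs_le.mp hc2).1
  simp only [zero_add] at hb1 hc1'
  calc ‖_‖ ≤ ‖e (x 0) * cc (x 1 - x 0) - e (x (N + 1)) * cc (x (N + 1) - x N)‖ + _ := norm_add_le _ _
    _ ≤ (‖e (x 0) * cc (x 1 - x 0)‖ + ‖e (x (N + 1)) * cc (x (N + 1) - x N)‖) + _ := by
        gcongr
        exact norm_sub_le _ _
    _ ≤ ((1 / 2 + 1 / (4 * θ)) + (1 / 2 + 1 / (4 * θ))) + (1 / (2 * θ) + 1 / (2 * θ)) / 2 := by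
        rw [norm_mul, norm_mul, norm_e, norm_e, one_mul, one_mul]
        gcongr
        refine hk.trans ?_
        gcongr
        linarith
    _ = 1 + 1 / θ := by field_simp; ring
    _ ≤ 2 / θ := by
        have : 1 ≤ 1 / θ := by rw [le_div_iff₀ hθ]; linarith
        have e4 : 2 / θ = 1 / θ + 1 / θ := by ring
        rw [e4]; linarith

lemma e_nat (n : ℕ) : e n = 1 := by
  unfold e
  rw [Complex.exp_eq_one_iff]
  exact ⟨n, by push_cast; ring⟩

/-- conjugation -/
lemma norm_sum_neg (x : ℕ → ℝ) (N : ℕ) : ‖∑ n ∈ range N, e (-(x n))‖ = ‖∑ n ∈ range N, e (x n)‖ := by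
  have : ∑ n ∈ range N, e (-(x n)) = (starRingEnd ℂ) (∑ n ∈ range N, e (x n)) := by
    rw [map_sum]
    exact sum_congr rfl fun n _ => (conj_e _).symm
  rw [this, Complex.norm_conj]

/-- Kusmin–Landau, decreasing differences. -/
theorem kusmin_landau_anti (x : ℕ → ℝ) (N : ℕ) {θ : ℝ} (hθ : 0 < θ)
    (h0 : ∀ n < N, θ ≤ x (n + 1) - x n) (h1 : ∀ n < N, x (n + 1) - x n ≤ 1 - θ)
    (hm : ∀ n, n + 1 < N → x (n + 2) - x (n + 1) ≤ x (n + 1) - x n) :
    ‖∑ n ∈ range N, e (x n)‖ ≤ 2 / θ := by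
  have h := kusmin_landau_mono (fun n => -(x n) + n) N hθ (by
      intro n hn
      have := h1 n hn
      push_cast; linarith) (by
      intro n hn
      have := h0 n hn
      push_cast; linarith) (by
      intro n hn
      have := hm n hn
      push_cast; linarith)
  rw [← norm_sum_neg x N]
  refine le_of_eq_of_le ?_ h
  congr 1
  refine sum_congr rfl fun n _ => ?_
  rw [e_add, e_nat, mul_one]

end Pool.Agent.H469R2.NK
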